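import Pool.Agent.V5helper66.LD.Stm

/-!
# Project LD: the case of dimension two of the probabilistic part (PB1)
-/

open Finset V5LD

namespace V5LDpb1

theorem sep_aux {R t1 M u v u' v' : ℝ} (hR : 2 * R ≤ t1) (hu : 0 < u) (hv : 0 < v)
    (hu' : 0 < u') (hv' : 0 < v') (h1 : t1 * (u * v) ≤ M) (h2 : t1 * (u' * v') ≤ M)
    (h : M ≤ u * v' + u' * v) : R * v ≤ v' ∨ R * v' ≤ v := by
  rcases le_or_gt (M / 2) (u * v') with h3 | h3
  · left
    have e1 : 2 * R * (u * v) ≤ t1 * (u * v) := mul_le_mul_of_nonneg_right hR (by positivity)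
    have e2 : u * (R * v) ≤ u * v' := by nlinarith
    exact le_of_mul_le_mul_left e2 hu
  · right
    have h4 : M / 2 ≤ u' * v := by linarith
    have e1 : 2 * R * (u' * v') ≤ t1 * (u' * v') := mul_le_mul_of_nonneg_right hR (by positivity)
    have e2 : u' * (R * v') ≤ u' * v := by nlinarith
    exact le_of_mul_le_mul_left e2 hu'

/-- the vector of a fraction -/
def hh (g M b : ℕ) (p : ℕ × ℕ) : Fin 2 → ℤ := ![(p.2 : ℤ) * M - p.1 * b, (g : ℤ) * p.1]

theorem det_aux {M b k m k' m' : ℕ} (hc : Nat.Coprime k m) (hc' : Nat.Coprime k' m')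
    (hne : (k, m) ≠ (k', m')) (hk : 0 < k) (hk' : 0 < k') :
    (M : ℝ) ≤ |(k : ℝ) * b - (m : ℝ) * M| * k' + |(k' : ℝ) * b - (m' : ℝ) * M| * k := by
  have h1 : ((m' : ℤ) * k - m * k') ≠ 0 := by
    intro h
    apply hne
    have h2 : m' * k = m * k' := by
      have : (m' : ℤ) * k = m * k' := by linarith
      exact_mod_cast this
    have h3 : k ∣ k' := by
      have : k ∣ m * k' := ⟨m', by rw [← h2]; ring⟩
      exact hc.dvd_of_dvd_mul_left this
    have h4 : k' ∣ k := by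
      have : k' ∣ m' * k := ⟨m, by rw [h2]; ring⟩
      exact hc'.dvd_of_dvd_mul_left this
    have h5 : k = k' := Nat.dvd_antisymm h3 h4
    subst h5
    have h6 : m' = m := Nat.eq_of_mul_eq_mul_right hk h2
    rw [h6]
  have h2 : (1 : ℝ) ≤ |((m' : ℝ) * k - m * k')| := by
    have : (1 : ℤ) ≤ |(m' : ℤ) * k - m * k'| := Int.one_le_abs h1
    have h3 : ((1 : ℤ) : ℝ) ≤ ((|(m' : ℤ) * k - m * k'| : ℤ) : ℝ) := by exact_mod_cast this
    push_cast at h3
    exact h3
  have h3 : ((k : ℝ) * b - (m : ℝ) * M) * k' - ((k' : ℝ) * b - (m' : ℝ) * M) * k =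
      M * ((m' : ℝ) * k - m * k') := by ring
  have h4 : (M : ℝ) ≤ |((k : ℝ) * b - (m : ℝ) * M) * k' - ((k' : ℝ) * b - (m' : ℝ) * M) * k| := by
    rw [h3, abs_mul, abs_of_nonneg (Nat.cast_nonneg M)]
    exact le_mul_of_one_le_right (Nat.cast_nonneg M) h2
  refine h4.trans ?_
  refine (abs_sub _ _).trans ?_
  rw [abs_mul, abs_mul, abs_of_nonneg (Nat.cast_nonneg k' : (0 : ℝ) ≤ k'),
    abs_of_nonneg (Nat.cast_nonneg k : (0 : ℝ) ≤ k)]

theorem good_of_cfsum {N g M K : ℕ} {c' : ℝ} (b : Fin 1 → ℕ) (hN : N = g * M) (hg : 0 < g)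
    (hM : 0 < M) (hR : 2 * Rp N ≤ t1p 1 N) (ht1 : 0 < t1p 1 N)
    (hs : Tp 1 N c' ≤ cfsum M K (t1p 1 N) (t2p 1 N) (b 0 % M)) : GoodB 1 N g c' b := by
  classical
  set β := b 0 % M with hβ
  unfold cfsum at hs
  set S := ((Finset.Icc 1 K) ×ˢ (Finset.range (K + 1))).filter (fun p =>
    Nat.Coprime p.1 p.2 ∧ t1p 1 N ≤ wt M β p.1 p.2 ∧ wt M β p.1 p.2 ≤ t2p 1 N) with hS
  have hS' : ∀ p ∈ S, 0 < p.1 ∧ Nat.Coprime p.1 p.2 ∧ t1p 1 N ≤ wt M β p.1 p.2 ∧
      wt M β p.1 p.2 ≤ t2p 1 N := by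
    intro p hp
    rw [hS] at hp
    simp only [Finset.mem_filter, Finset.mem_product, Finset.mem_Icc] at hp
    exact ⟨hp.1.1.1, hp.2⟩
  have hgR : (0 : ℝ) < g := by exact_mod_cast hg
  have hMR : (0 : ℝ) < M := by exact_mod_cast hM
  -- basic facts
  have hx : ∀ p ∈ S, 0 < |(p.1 : ℝ) * β - (p.2 : ℝ) * M| := by
    intro p hp
    obtain ⟨h1, h2, h3, h4⟩ := hS' p hp
    rw [abs_pos]
    intro h0
    unfold wt at h3
    rw [h0] at h3
    simp at h3
    linarith
  have hlo : ∀ p ∈ S, t1p 1 N * ((p.1 : ℝ) * |(p.1 : ℝ) * β - (p.2 : ℝ) * M|) ≤ M := by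
    intro p hp
    obtain ⟨h1, h2, h3, h4⟩ := hS' p hp
    have h5 : (0 : ℝ) < p.1 := by exact_mod_cast h1
    unfold wt at h3
    rwa [le_div_iff₀ (mul_pos h5 (hx p hp))] at h3
  have hhi : ∀ p ∈ S, (M : ℝ) ≤ t2p 1 N * ((p.1 : ℝ) * |(p.1 : ℝ) * β - (p.2 : ℝ) * M|) := by
    intro p hp
    obtain ⟨h1, h2, h3, h4⟩ := hS' p hp
    have h5 : (0 : ℝ) < p.1 := by exact_mod_cast h1
    unfold wt at h4
    rwa [div_le_iff₀ (mul_pos h5 (hx p hp))] at h4
  have habs0 : ∀ p, |((hh g M β p 0 : ℤ) : ℝ)| = |(p.1 : ℝ) * β - (p.2 : ℝ) * M| := by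
    intro p
    simp only [hh, Matrix.cons_val_zero]
    push_cast
    rw [abs_sub_comm]
  have habs1 : ∀ p, |((hh g M β p 1 : ℤ) : ℝ)| = g * p.1 := by
    intro p
    simp only [hh, Matrix.cons_val_one]
    push_cast
    rw [abs_of_nonneg (by positivity)]
  have hrr : ∀ p, rr (hh g M β p) = g * ((p.1 : ℝ) * |(p.1 : ℝ) * β - (p.2 : ℝ) * M|) := by
    intro p
    unfold rr
    rw [Fin.prod_univ_two, habs0, habs1]
    ring
  have hNR : (N : ℝ) = g * M := by rw [hN]; push_cast; ring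
  have hwt : ∀ p, (N : ℝ) / rr (hh g M β p) = wt M β p.1 p.2 := by
    intro p
    rw [hrr, hNR]
    unfold wt
    rw [mul_div_mul_left _ _ hgR.ne']
  have hinj : Set.InjOn (hh g M β) S := by
    intro p _ q _ hpq
    have h0 := congrFun hpq 0
    have h1 := congrFun hpq 1
    simp only [hh, Matrix.cons_val_zero, Matrix.cons_val_one] at h0 h1
    have h2 : (p.1 : ℤ) = q.1 := mul_left_cancel₀ (by exact_mod_cast hg.ne') h1
    have h3 : (p.2 : ℤ) = q.2 := by
      rw [h2] at h0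
      have : (p.2 : ℤ) * M = q.2 * M := by linarith
      exact mul_right_cancel₀ (by exact_mod_cast hM.ne') this
    exact Prod.ext (by exact_mod_cast h2) (by exact_mod_cast h3)
  refine ⟨S.image (hh g M β), ⟨?_, ?_, ?_, ?_, ?_⟩, ?_⟩
  · intro h hh' i
    obtain ⟨p, hp, rfl⟩ := Finset.mem_image.1 hh'
    fin_cases i
    · show hh g M β p 0 ≠ 0
      intro h0
      have := hx p hp
      rw [← habs0, h0] at this
      simp at this
    · show hh g M β p 1 ≠ 0
      intro h0
      have h1 : (0 : ℝ) < p.1 := by exact_mod_cast (hS' p hp).1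
      have h2 := habs1 p
      rw [h0] at h2
      simp only [Int.cast_zero, abs_zero] at h2
      have := mul_pos hgR h1
      linarith
  · intro h hh'
    obtain ⟨p, hp, rfl⟩ := Finset.mem_image.1 hh'
    rw [hrr, hNR]
    have := mul_le_mul_of_nonneg_left (hlo p hp) hgR.le
    linarith
  · intro h hh'
    obtain ⟨p, hp, rfl⟩ := Finset.mem_image.1 hh'
    rw [hrr, hNR]
    have := mul_le_mul_of_nonneg_left (hhi p hp) hgR.le
    linarith
  · intro h hh1 h' hh2 hne i
    obtain ⟨p, hp, rfl⟩ := Finset.mem_image.1 hh1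
    obtain ⟨q, hq, rfl⟩ := Finset.mem_image.1 hh2
    have hpq : (p.1, p.2) ≠ (q.1, q.2) := by
      intro h
      apply hne
      have : p = q := h
      rw [this]
    obtain ⟨p1, p2, p3, p4⟩ := hS' p hp
    obtain ⟨q1, q2, q3, q4⟩ := hS' q hq
    have hdet := det_aux (M := M) (b := β) p2 q2 hpq p1 q1
    have hp1 : (0 : ℝ) < p.1 := by exact_mod_cast p1
    have hq1 : (0 : ℝ) < q.1 := by exact_mod_cast q1
    have hl1 := hlo p hp
    have hl2 := hlo q hq
    fin_cases i
    · show Rp N * |((hh g M β p 0 : ℤ) : ℝ)| ≤ |((hh g M β q 0 : ℤ) : ℝ)| ∨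
        Rp N * |((hh g M β q 0 : ℤ) : ℝ)| ≤ |((hh g M β p 0 : ℤ) : ℝ)|
      rw [habs0, habs0]
      exact sep_aux hR hp1 (hx p hp) hq1 (hx q hq) hl1 hl2 (by linarith)
    · show Rp N * |((hh g M β p 1 : ℤ) : ℝ)| ≤ |((hh g M β q 1 : ℤ) : ℝ)| ∨
        Rp N * |((hh g M β q 1 : ℤ) : ℝ)| ≤ |((hh g M β p 1 : ℤ) : ℝ)|
      rw [habs1, habs1]
      rw [mul_comm (p.1 : ℝ)] at hl1
      rw [mul_comm (q.1 : ℝ)] at hl2
      rcases sep_aux hR (hx p hp) hp1 (hx q hq) hq1 hl1 hl2 (by linarith) with h | h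
      · left
        have := mul_le_mul_of_nonneg_left h hgR.le
        linarith
      · right
        have := mul_le_mul_of_nonneg_left h hgR.le
        linarith
  · rw [Finset.sum_image hinj]
    simp only [hwt]
    exact hs
  · intro h hh'
    obtain ⟨p, hp, rfl⟩ := Finset.mem_image.1 hh'
    have e1 : (hh g M β p) 0 = (p.2 : ℤ) * M - p.1 * β := rfl
    have e2 : (hh g M β p) (Fin.succ 0) = (g : ℤ) * p.1 := rfl
    rw [Fin.sum_univ_one, e1, e2]
    have e3 : (β : ℤ) = (b 0 : ℤ) - M * (b 0 / M : ℕ) := by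
      have := Nat.mod_add_div (b 0) M
      rw [← hβ] at this
      have h2 : (β : ℤ) + M * (b 0 / M : ℕ) = (b 0 : ℤ) := by exact_mod_cast this
      linarith
    rw [e3, hN]
    refine ⟨(p.2 : ℤ) + p.1 * (b 0 / M : ℕ), ?_⟩
    push_cast
    ring

open Classical in
theorem count_bad {N g M : ℕ} (hN : N = g * M) (hM : 0 < M) (E : Finset ℕ)
    (P : (Fin 1 → Fin N) → Prop) (hP : ∀ b, P b → ((b 0 : Fin N) : ℕ) % M ∈ E) :
    ((univ : Finset (Fin 1 → Fin N)).filter P).card ≤ E.card * g := by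
  have h1 : (E ×ˢ Finset.range g).card = E.card * g := by
    rw [Finset.card_product, Finset.card_range]
  rw [← h1]
  refine Finset.card_le_card_of_injOn
    (fun b : Fin 1 → Fin N => (((b 0 : Fin N) : ℕ) % M, ((b 0 : Fin N) : ℕ) / M)) ?_ ?_
  · intro b hb
    have hb' : P b := (Finset.mem_filter.1 hb).2
    refine Finset.mem_coe.2 (Finset.mem_product.2 ⟨hP b hb', Finset.mem_range.2 ?_⟩)
    have h2 : ((b 0 : Fin N) : ℕ) < g * M := by rw [← hN]; exact (b 0).2
    exact (Nat.div_lt_iff_lt_mul hM).2 h2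
  · intro b _ b' _ h
    simp only [Prod.mk.injEq] at h
    have h3 : ((b 0 : Fin N) : ℕ) = ((b' 0 : Fin N) : ℕ) := by
      rw [← Nat.mod_add_div ((b 0 : Fin N) : ℕ) M, h.1, h.2, Nat.mod_add_div]
    funext i
    rw [Subsingleton.elim i 0]
    exact Fin.ext h3

theorem t_PB1 : S_PB1 := by
  rintro ⟨c, hc, C, hC, hCF⟩
  refine ⟨1 / 2, by norm_num, fun ε hε _F => ⟨c / 160, by positivity, ?_⟩⟩
  -- conditions on `z = (log N) ^ (1/8)`
  have hl : Filter.Tendsto (fun N : ℕ => Real.log (N : ℝ)) Filter.atTop Filter.atTop :=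
    Real.tendsto_log_atTop.comp tendsto_natCast_atTop_atTop
  have hz : Filter.Tendsto (fun N : ℕ => (Real.log (N : ℝ)) ^ (1 / 8 : ℝ)) Filter.atTop
      Filter.atTop := (tendsto_rpow_atTop (by norm_num)).comp hl
  have hexp : ∀ A : ℝ, ∀ᶠ N : ℕ in Filter.atTop, A ≤ Real.exp (Real.log (N : ℝ) / 5) := by
    intro A
    exact (Real.tendsto_exp_atTop.comp (hl.atTop_div_const (by norm_num))).eventually
      (Filter.eventually_ge_atTop A)
  have hexp2 : ∀ᶠ N : ℕ in Filter.atTop,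
      C * Real.log (N : ℝ) ≤ Real.exp (Real.log (N : ℝ) / 20) := by
    have h1 : Filter.Tendsto (fun x : ℝ => Real.exp (1 / 20 * x) / x ^ (1 : ℝ)) Filter.atTop
        Filter.atTop := tendsto_exp_mul_div_rpow_atTop 1 (1 / 20) (by norm_num)
    have h2 := (h1.comp hl).eventually (Filter.eventually_ge_atTop C)
    filter_upwards [h2, hl.eventually (Filter.eventually_gt_atTop 0)] with N h3 h4
    simp only [Function.comp_apply, Real.rpow_one] at h3
    rw [le_div_iff₀ h4] at h3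
    rw [show Real.log (N : ℝ) / 20 = 1 / 20 * Real.log (N : ℝ) by ring]
    exact h3
  obtain ⟨N0, hN0⟩ := Filter.eventually_atTop.1
    (((hz.eventually (Filter.eventually_ge_atTop (max (max 2 C) (160 / c * Real.log (C / ε))))).and
      (hl.eventually (Filter.eventually_ge_atTop (Real.exp 1)))).and
      ((hexp (64 * C)).and hexp2))
  refine ⟨max N0 1, fun N hN g hgN hgη => ?_⟩
  obtain ⟨⟨h1, h2⟩, h3, h4⟩ := hN0 N (le_trans (le_max_left _ _) hN)
  have hN1 : 1 ≤ N := le_trans (le_max_right _ _) hN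
  obtain ⟨M, hM⟩ := hgN
  have hg0 : 0 < g := Nat.pos_of_ne_zero (by rintro rfl; omega)
  have hM0 : 0 < M := Nat.pos_of_ne_zero (by rintro rfl; omega)
  have hNR : (0 : ℝ) < N := by exact_mod_cast hN1
  have hgR : (0 : ℝ) < g := by exact_mod_cast hg0
  have hMR : (0 : ℝ) < M := by exact_mod_cast hM0
  set l := Real.log (N : ℝ) with hldef
  set z := l ^ (1 / 8 : ℝ) with hzdef
  have hl1 : 1 ≤ l := by
    have := Real.add_one_le_exp (1 : ℝ)
    linarith
  have hl0 : 0 < l := by linarith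
  have hz0 : 0 < z := Real.rpow_pos_of_pos hl0 _
  have hz2 : 2 ≤ z := le_trans (le_trans (le_max_left _ _) (le_max_left _ _)) h1
  have hzC : C ≤ z := le_trans (le_trans (le_max_right _ _) (le_max_left _ _)) h1
  have hzE : 160 / c * Real.log (C / ε) ≤ z := le_trans (le_max_right _ _) h1
  have hpow : ∀ m : ℕ, z ^ m = l ^ ((m : ℝ) / 8) := by
    intro m
    rw [hzdef, ← Real.rpow_natCast, ← Real.rpow_mul hl0.le]
    congr 1
    ring
  have ht1 : t1p 1 N = z ^ 6 := by
    unfold t1p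
    rw [hpow, ← hldef]
    congr 1
    push_cast
    norm_num
  have ht2 : t2p 1 N = z ^ 7 := by
    unfold t2p
    rw [hpow, ← hldef]
    congr 1
    push_cast
    norm_num
  have hRp : Rp N = z ^ 4 := by
    unfold Rp
    rw [hpow, ← hldef]
    congr 1
    push_cast
    norm_num
  have hz8 : z ^ 8 = l := by
    rw [hpow]
    norm_num
  have hlogl : 1 ≤ Real.log l := by
    have := Real.log_le_log (Real.exp_pos 1) h2
    rwa [Real.log_exp] at this
  have hratio : Real.log (t2p 1 N / t1p 1 N) = 1 / 8 * Real.log l := by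
    rw [ht1, ht2]
    have : z ^ 7 / z ^ 6 = z := by
      field_simp
    rw [this, hzdef, Real.log_rpow hl0]
  -- the choice of `K`
  set K : ℕ := ⌈Real.exp (l / 20)⌉₊ with hK
  have hK1 : Real.exp (l / 20) ≤ K := Nat.le_ceil _
  have hK2 : (K : ℝ) ≤ 2 * Real.exp (l / 20) := by
    have e1 : (K : ℝ) < Real.exp (l / 20) + 1 := Nat.ceil_lt_add_one (Real.exp_pos _).le
    have e2 : (1 : ℝ) ≤ Real.exp (l / 20) := Real.one_le_exp (by positivity)
    linarith
  have hlogK : l / 20 ≤ Real.log K := by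
    have := Real.log_le_log (Real.exp_pos _) hK1
    rwa [Real.log_exp] at this
  -- `M` is large
  have hMbig : Real.exp (l / 2) ≤ M := by
    have e1 : (N : ℝ) = g * M := by rw [hM]; push_cast; ring
    have e2 : (N : ℝ) ^ (1 / 2 : ℝ) = Real.exp (l / 2) := by
      rw [Real.rpow_def_of_pos hNR, ← hldef]
      congr 1
      ring
    have e3 : Real.exp (l / 2) * Real.exp (l / 2) = N := by
      rw [← Real.exp_add, hldef]
      rw [show Real.log (N : ℝ) / 2 + Real.log (N : ℝ) / 2 = Real.log (N : ℝ) by ring,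
        Real.exp_log hNR]
    rw [e2] at hgη
    have e4 : 0 < Real.exp (l / 2) := Real.exp_pos _
    have e5 : Real.exp (l / 2) * Real.exp (l / 2) ≤ Real.exp (l / 2) * M := by
      rw [e3, e1]
      exact mul_le_mul_of_nonneg_right hgη hMR.le
    exact le_of_mul_le_mul_left e5 e4
  have hc1 : (2 : ℝ) ≤ t1p 1 N := by
    rw [ht1]
    have : z ^ 1 ≤ z ^ 6 := pow_le_pow_right₀ (by linarith) (by norm_num)
    linarith
  have hc2 : C * t1p 1 N ≤ t2p 1 N := by
    rw [ht1, ht2, show z ^ 7 = z * z ^ 6 by ring]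
    exact mul_le_mul_of_nonneg_right hzC (by positivity)
  have hc3 : C * t2p 1 N ≤ K := by
    refine le_trans ?_ (h4.trans hK1)
    apply mul_le_mul_of_nonneg_left _ hC.le
    rw [ht2, ← hz8]
    exact pow_le_pow_right₀ (by linarith) (by norm_num)
  have hc4 : C * (K : ℝ) ^ 6 ≤ M := by
    have e1 : (K : ℝ) ^ 6 ≤ (2 * Real.exp (l / 20)) ^ 6 :=
      pow_le_pow_left₀ (Nat.cast_nonneg K) hK2 6
    have e2 : (2 * Real.exp (l / 20)) ^ 6 = 64 * Real.exp (l * 3 / 10) := by
      rw [mul_pow, ← Real.exp_nat_mul]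
      norm_num
      ring
    have e3 : Real.exp (l / 5) * Real.exp (l * 3 / 10) = Real.exp (l / 2) := by
      rw [← Real.exp_add]
      congr 1
      ring
    calc C * (K : ℝ) ^ 6 ≤ C * (64 * Real.exp (l * 3 / 10)) := by
          rw [← e2]; exact mul_le_mul_of_nonneg_left e1 hC.le
      _ = 64 * C * Real.exp (l * 3 / 10) := by ring
      _ ≤ Real.exp (l / 5) * Real.exp (l * 3 / 10) :=
          mul_le_mul_of_nonneg_right h3 (Real.exp_pos _).le
      _ = Real.exp (l / 2) := e3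
      _ ≤ M := hMbig
  have hmain := hCF M K (t1p 1 N) (t2p 1 N) hc1 hc2 hc3 hc4
  classical
  set E := (Finset.range M).filter (fun b =>
    cfsum M K (t1p 1 N) (t2p 1 N) b < c * (Real.log (t2p 1 N / t1p 1 N) * Real.log K)) with hE
  -- the lower bound of the product of the logarithms
  have hprod : l * Real.log l / 160 ≤ Real.log (t2p 1 N / t1p 1 N) * Real.log K := by
    rw [hratio]
    have e1 : 1 / 8 * Real.log l * (l / 20) ≤ 1 / 8 * Real.log l * Real.log K :=
      mul_le_mul_of_nonneg_left hlogK (by linarith)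
    linarith
  have hcard := count_bad (N := N) (g := g) (M := M) hM hM0 E
    (fun b => CoLe g _F (fun i => ((b i : Fin N) : ℕ)) ∧
      ¬ GoodB 1 N g (c / 160) (fun i => ((b i : Fin N) : ℕ))) (by
    rintro b ⟨-, hb⟩
    rw [hE, Finset.mem_filter]
    refine ⟨Finset.mem_range.2 (Nat.mod_lt _ hM0), ?_⟩
    by_contra hcon
    rw [not_lt] at hcon
    apply hb
    refine good_of_cfsum (K := K) _ hM hg0 hM0 ?_ (by linarith) ?_
    · rw [hRp, ht1]
      have : 2 * z ^ 4 ≤ z ^ 2 * z ^ 4 := by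
        apply mul_le_mul_of_nonneg_right _ (by positivity)
        nlinarith
      calc 2 * z ^ 4 ≤ z ^ 2 * z ^ 4 := this
        _ = z ^ 6 := by ring
    · refine le_trans ?_ hcon
      unfold Tp
      rw [← hldef, pow_one]
      have := mul_le_mul_of_nonneg_left hprod hc.le
      calc c / 160 * (l * Real.log l) = c * (l * Real.log l / 160) := by ring
        _ ≤ _ := this)
  -- the exponential is small
  have hexpo : C * Real.exp (-(c * (Real.log (t2p 1 N / t1p 1 N) * Real.log K) / t2p 1 N)) ≤ ε := by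
    have e1 : c / 160 * z ≤ c * (Real.log (t2p 1 N / t1p 1 N) * Real.log K) / t2p 1 N := by
      rw [ht2, le_div_iff₀ (by positivity)]
      rw [ht1, ht2] at hprod
      have f1 : l ≤ l * Real.log l := le_mul_of_one_le_right hl0.le hlogl
      have f2 : c * (l / 160) ≤ c * (Real.log (z ^ 7 / z ^ 6) * Real.log K) := by
        apply mul_le_mul_of_nonneg_left _ hc.le
        refine le_trans ?_ hprod
        linarith
      calc c / 160 * z * z ^ 7 = c * (z ^ 8 / 160) := by ring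
        _ = c * (l / 160) := by rw [hz8]
        _ ≤ _ := by rw [ht1]; exact f2
    have e2 : Real.log (C / ε) ≤ c / 160 * z := by
      have := mul_le_mul_of_nonneg_left hzE (by positivity : 0 ≤ c / 160)
      have f3 : c / 160 * (160 / c * Real.log (C / ε)) = Real.log (C / ε) := by
        field_simp
      linarith
    have e3 : Real.exp (-(c * (Real.log (t2p 1 N / t1p 1 N) * Real.log K) / t2p 1 N)) ≤
        Real.exp (-Real.log (C / ε)) := Real.exp_le_exp.2 (by linarith)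
    have e4 : Real.exp (-Real.log (C / ε)) = ε / C := by
      rw [Real.exp_neg, Real.exp_log (by positivity), inv_div]
    rw [e4] at e3
    calc _ ≤ C * (ε / C) := mul_le_mul_of_nonneg_left e3 hC.le
      _ = ε := by field_simp
  have hfin : (E.card : ℝ) * g ≤ ε * N := by
    have e1 : (N : ℝ) = g * M := by rw [hM]; push_cast; ring
    calc (E.card : ℝ) * g ≤ (C * M *
          Real.exp (-(c * (Real.log (t2p 1 N / t1p 1 N) * Real.log K) / t2p 1 N))) * g :=
          mul_le_mul_of_nonneg_right hmain hgR.le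
      _ = (C * Real.exp (-(c * (Real.log (t2p 1 N / t1p 1 N) * Real.log K) / t2p 1 N))) *
          (g * M) := by ring
      _ ≤ ε * (g * M) := mul_le_mul_of_nonneg_right hexpo (by positivity)
      _ = ε * N := by rw [e1]
  rw [pow_one]
  refine le_trans ?_ hfin
  exact_mod_cast hcard

end V5LDpb1
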